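import Pool.Agent.H82.KS2.Ext

/-!
# K_SAT2 from the core theorem and the extension
-/

set_option autoImplicit false

namespace Pool.KS2

open Finset Real
open Pool.Agent.H49.Ent Pool.Agent.H32.Dense Pool.STK Pool.KAF Pool.OC Pool.OC.RS

theorem Pr_nn {Ω : Type} [Fintype Ω] {p : Ω → ℝ} (hp : ∀ ω, 0 ≤ p ω) (E : Set Ω) :
    0 ≤ Pr p E := law_nonneg hp _ _

/-- The budget. -/
theorem fin_mi {X C g δ δ₁ m x : ℝ} (hX : 96 * C ≤ δ₁ * X) (hg0 : 0 ≤ g)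
    (hg : g ≤ δ * X) (hδ : 104 * δ ≤ δ₁) (hm : m ≤ δ * X) (hx : X ≤ 4 * x) (hX0 : 0 ≤ X)
    (hC : 0 ≤ C) (hδ₁ : 0 ≤ δ₁) : m + 12 * (g + C) * Real.log 2 ≤ δ₁ * x := by
  have hl : Real.log 2 ≤ 1 := by
    have := Real.log_two_lt_d9
    linarith
  have h1 : 12 * (g + C) * Real.log 2 ≤ 12 * (g + C) * 1 :=
    mul_le_mul_of_nonneg_left hl (by positivity)
  have h2 : 104 * δ * X ≤ δ₁ * X := mul_le_mul_of_nonneg_right hδ hX0
  have h3 : δ₁ * X ≤ δ₁ * (4 * x) := mul_le_mul_of_nonneg_left hx hδ₁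
  linarith

/-- The main term. -/
theorem fin_main {X C g δ ε P x : ℝ} (hx : x + (C + 2 * g) = X) (hg0 : 0 ≤ g) (hg : g ≤ δ * X)
    (hC : 0 ≤ C) (hCX : 8 * C ≤ ε * X) (hδ : 40 * δ ≤ ε) (hP0 : 0 ≤ P) (hP : P ≤ 3 * δ)
    (hX0 : 0 ≤ X) (hε : 0 ≤ ε) : (2 - ε) * X ≤ (2 - ε / 2 - 2 * P) * x := by
  have e1 : x = X - (C + 2 * g) := by linarith
  have h1 : 40 * δ * X ≤ ε * X := mul_le_mul_of_nonneg_right hδ hX0
  have h2 : P * X ≤ 3 * δ * X := mul_le_mul_of_nonneg_right hP hX0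
  have h3 : 0 ≤ (ε / 2 + 2 * P) * (C + 2 * g) := by positivity
  rw [e1]
  linarith

/-- **K_SAT2** from the core theorem. -/
theorem ksat2_of (hcore : CoreStmt) : KSat2Stmt := by
  intro A B k' c ε hc hε
  obtain ⟨δ₁, s, X₁, hδ₁, hcore⟩ := hcore k' c (ε / 2) hc (by positivity)
  obtain ⟨C, hext⟩ := ext_thm A B s
  obtain ⟨δ, hδd⟩ : ∃ δ, δ = min (1 / 4) (min (δ₁ / 104) (ε / 40)) := ⟨_, rfl⟩
  have hδ : 0 < δ := by
    rw [hδd]
    exact lt_min (by norm_num) (lt_min (by positivity) (by positivity))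
  have hδ4 : δ ≤ 1 / 4 := by rw [hδd]; exact min_le_left _ _
  have hδ1 : δ ≤ δ₁ / 104 := by rw [hδd]; exact (min_le_right _ _).trans (min_le_left _ _)
  have hδ2 : δ ≤ ε / 40 := by rw [hδd]; exact (min_le_right _ _).trans (min_le_right _ _)
  obtain ⟨X₂, hX₂⟩ := exists_nat_ge (96 * (C : ℝ) / δ₁)
  obtain ⟨X₃, hX₃⟩ := exists_nat_ge (8 * (C : ℝ) / ε)
  refine ⟨δ, 4 * C + 4 * X₁ + X₂ + X₃, hδ, fun d g hd hX hg hmi hfl D hD => ?_⟩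
  have hl2 : 0 < Real.log 2 := Real.log_pos (by norm_num)
  have hX0 : (0 : ℝ) ≤ d.X := Nat.cast_nonneg _
  have hC0 : (0 : ℝ) ≤ C := Nat.cast_nonneg _
  have hg0 : (0 : ℝ) ≤ g := Nat.cast_nonneg _
  have hXR : 4 * (C : ℝ) + 4 * X₁ + X₂ + X₃ ≤ d.X := by exact_mod_cast hX
  have h1R : (0 : ℝ) ≤ X₁ := Nat.cast_nonneg _
  have h2R : (0 : ℝ) ≤ X₂ := Nat.cast_nonneg _
  have h3R : (0 : ℝ) ≤ X₃ := Nat.cast_nonneg _
  have hgX : (g : ℝ) ≤ 1 / 4 * d.X := hg.trans (mul_le_mul_of_nonneg_right hδ4 hX0)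
  have hCg : C + 2 * g ≤ d.X := by
    have : (C : ℝ) + 2 * g ≤ d.X := by linarith
    exact_mod_cast this
  obtain ⟨e, he, heX, hG, hCH, hm1, hm2, hdd⟩ := hext d g δ hd hδ.le hCg hfl
  obtain ⟨D', hD', hdead⟩ := hdd D
  have heXR : (e.X : ℝ) + (C + 2 * g) = d.X := by exact_mod_cast heX
  have hbig : (d.X : ℝ) ≤ 4 * e.X := by linarith
  have hX₁ : X₁ ≤ e.X := by
    have : (X₁ : ℝ) ≤ e.X := by linarith
    exact_mod_cast this
  have h96 : 96 * (C : ℝ) ≤ δ₁ * d.X := by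
    rw [div_le_iff₀ hδ₁] at hX₂
    have : (X₂ : ℝ) * δ₁ ≤ d.X * δ₁ := mul_le_mul_of_nonneg_right (by linarith) hδ₁.le
    linarith
  have h8 : 8 * (C : ℝ) ≤ ε * d.X := by
    rw [div_le_iff₀ hε] at hX₃
    have : (X₃ : ℝ) * ε ≤ d.X * ε := mul_le_mul_of_nonneg_right (by linarith) hε.le
    linarith
  have k1 : ∀ j, mi e.P (e.L j) e.T e.a ≤ δ₁ * e.X := fun j =>
    (hm1 j).trans (fin_mi h96 hg0 hg (by linarith) hmi hbig hX0 hC0 hδ₁.le)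
  have k2 : mi e.P e.T e.a (fun ω => (e.L 0 ω, e.b ω)) ≤ δ₁ * e.X := by
    have := fin_mi (m := 0) h96 hg0 hg (by linarith) (by positivity) hbig hX0 hC0 hδ₁.le
    linarith
  have key := hcore e he hX₁ k1 k2 D' (fun i ω hω hn => hdead k' i c (hD i) ω hω hn)
  have hsum : ∑ i ∈ Finset.range e.X, Pr e.P (D' i) ≤ ∑ i ∈ Finset.range d.X, Pr d.P (D i) := by
    rw [Finset.sum_congr rfl fun i _ => hD' i]
    refine Finset.sum_le_sum_of_subset_of_nonneg (fun i hi => ?_) fun i _ _ => ?_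
    · rw [Finset.mem_range] at hi ⊢
      omega
    · exact Pr_nn hd.law.nonneg _
  have hPG : 0 ≤ Pr e.P e.Gᶜ := Pr_nn he.law.nonneg _
  have hmain := fin_main (ε := ε) (P := Pr e.P e.Gᶜ) heXR hg0 hg hC0 h8 (by linarith) hPG hG hX0
    hε.le
  have h9 := mul_le_mul_of_nonneg_right hmain hl2.le
  have h10 := mul_le_mul_of_nonneg_left hsum (show 0 ≤ 2 * Real.log 2 by positivity)
  linarith

end Pool.KS2
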