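import Pool.Agent.H60.KS2.Defs
import Pool.Agent.H43.OC.RW
import Pool.Agent.H20.OC.Tools
import Pool.Agent.H87.OC.Cost

/-!
# K_SAT2, extension: three samples, independent given the exact point and time

The lines of the three samples pass through the same point at the same time. In the basis of the
differences of the three velocities, in the frame which moves with the first velocity, they move
with the velocities `0`, `e₁`, `e₂`. The cells of the velocities go into the context.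
-/

set_option autoImplicit false

namespace Pool.KS2

open Finset Real
open Pool.Agent.H49.Ent Pool.Agent.H32.Dense Pool.STK Pool.KAF Pool.OC Pool.OC.RS

/-! ### Laws -/

section law

variable {Ω₁ Ω₂ T : Type} [Fintype Ω₁] [Fintype Ω₂]

theorem Pr_glue {p : Ω₁ → ℝ} {q : Ω₂ → ℝ} {Z₁ : Ω₁ → T} {Z₂ : Ω₂ → T}
    (hZ : ∀ z, law p Z₁ z = law q Z₂ z) (E : Set (Ω₁ × Ω₂)) :
    Pr (glue p q Z₁ Z₂) E = Ex p (fun x => Pr (cond q Z₂ (Z₁ x)) {y | (x, y) ∈ E}) := by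
  classical
  rw [Pool.KAF.Pr_eq]
  unfold Ex
  rw [Fintype.sum_prod_type]
  refine Finset.sum_congr rfl fun x _ => ?_
  show _ = p x * Pr (cond q Z₂ (Z₁ x)) {y | (x, y) ∈ E}
  rw [Pool.KAF.Pr_eq, Finset.mul_sum]
  refine Finset.sum_congr rfl fun y _ => ?_
  unfold Pool.Agent.H49.Ent.glue Pool.Agent.H49.Ent.cond
  by_cases h1 : (x, y) ∈ E
  · rw [if_pos h1, if_pos (show y ∈ {y | (x, y) ∈ E} from h1)]
    by_cases h2 : Z₁ x = Z₂ y
    · rw [if_pos h2, if_pos h2.symm, hZ]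
      ring
    · rw [if_neg h2, if_neg (Ne.symm h2), mul_zero]
  · rw [if_neg h1, if_neg (show y ∉ {y | (x, y) ∈ E} from h1), mul_zero]

theorem Ex_le {p : Ω₁ → ℝ} (hp : IsLaw p) {f : Ω₁ → ℝ} {c : ℝ} (h : ∀ ω, 0 < p ω → f ω ≤ c) :
    Ex p f ≤ c := by
  have h1 := Ex_mono hp.nonneg h
  rwa [Ex_const hp.sum_one] at h1

end law

/-! ### Three vectors of the plane -/

section plane

/-- First difference. -/
def u1 (c : Fin 3 → Fin 2 → ℝ) (k : Fin 2) : ℝ := c 1 k - c 0 k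

/-- Second difference. -/
def u2 (c : Fin 3 → Fin 2 → ℝ) (k : Fin 2) : ℝ := c 2 k - c 0 k

/-- The determinant of the differences. -/
def dt (c : Fin 3 → Fin 2 → ℝ) : ℝ := u1 c 0 * u2 c 1 - u1 c 1 * u2 c 0

/-- Coordinates in the basis of the differences. -/
noncomputable def co (c : Fin 3 → Fin 2 → ℝ) (M : Fin 2 → ℝ) : Fin 2 → ℝ :=
  ![(M 0 * u2 c 1 - M 1 * u2 c 0) / dt c, (M 1 * u1 c 0 - M 0 * u1 c 1) / dt c]

theorem co_sub (c : Fin 3 → Fin 2 → ℝ) (M M' : Fin 2 → ℝ) (k : Fin 2) :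
    co c M' k - co c M k = co c (fun i => M' i - M i) k := by
  fin_cases k
  · show (M' 0 * u2 c 1 - M' 1 * u2 c 0) / dt c - (M 0 * u2 c 1 - M 1 * u2 c 0) / dt c =
      ((M' 0 - M 0) * u2 c 1 - (M' 1 - M 1) * u2 c 0) / dt c
    ring
  · show (M' 1 * u1 c 0 - M' 0 * u1 c 1) / dt c - (M 1 * u1 c 0 - M 0 * u1 c 1) / dt c =
      ((M' 1 - M 1) * u1 c 0 - (M' 0 - M 0) * u1 c 1) / dt c
    ring

theorem co_add (c : Fin 3 → Fin 2 → ℝ) (M M' : Fin 2 → ℝ) (k : Fin 2) :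
    co c (fun i => M i + M' i) k = co c M k + co c M' k := by
  fin_cases k
  · show ((M 0 + M' 0) * u2 c 1 - (M 1 + M' 1) * u2 c 0) / dt c =
      (M 0 * u2 c 1 - M 1 * u2 c 0) / dt c + (M' 0 * u2 c 1 - M' 1 * u2 c 0) / dt c
    ring
  · show ((M 1 + M' 1) * u1 c 0 - (M 0 + M' 0) * u1 c 1) / dt c =
      (M 1 * u1 c 0 - M 0 * u1 c 1) / dt c + (M' 1 * u1 c 0 - M' 0 * u1 c 1) / dt c
    ring

theorem co_mul (c : Fin 3 → Fin 2 → ℝ) (a : ℝ) (M : Fin 2 → ℝ) (k : Fin 2) :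
    co c (fun i => a * M i) k = a * co c M k := by
  fin_cases k
  · show (a * M 0 * u2 c 1 - a * M 1 * u2 c 0) / dt c = a * ((M 0 * u2 c 1 - M 1 * u2 c 0) / dt c)
    ring
  · show (a * M 1 * u1 c 0 - a * M 0 * u1 c 1) / dt c = a * ((M 1 * u1 c 0 - M 0 * u1 c 1) / dt c)
    ring

/-- The three vectors have the coordinates `0`, `e₁`, `e₂`. -/
theorem co_vel (c : Fin 3 → Fin 2 → ℝ) (h : dt c ≠ 0) (j : Fin 3) (k : Fin 2) :
    co c (fun i => c j i - c 0 i) k = vel j k := by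
  fin_cases j
  · fin_cases k
    · show ((c 0 0 - c 0 0) * u2 c 1 - (c 0 1 - c 0 1) * u2 c 0) / dt c = 0
      rw [sub_self, sub_self, zero_mul, zero_mul, sub_zero, zero_div]
    · show ((c 0 1 - c 0 1) * u1 c 0 - (c 0 0 - c 0 0) * u1 c 1) / dt c = 0
      rw [sub_self, sub_self, zero_mul, zero_mul, sub_zero, zero_div]
  · fin_cases k
    · show (u1 c 0 * u2 c 1 - u1 c 1 * u2 c 0) / dt c = 1
      exact div_self h
    · show (u1 c 1 * u1 c 0 - u1 c 0 * u1 c 1) / dt c = 0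
      rw [mul_comm, sub_self, zero_div]
  · fin_cases k
    · show (u2 c 0 * u2 c 1 - u2 c 1 * u2 c 0) / dt c = 0
      rw [mul_comm, sub_self, zero_div]
    · show (u2 c 1 * u1 c 0 - u2 c 0 * u1 c 1) / dt c = 1
      rw [show u2 c 1 * u1 c 0 - u2 c 0 * u1 c 1 = dt c by unfold dt; ring]
      exact div_self h

theorem abs_mul_sub_le {a b x y U E : ℝ} (ha : |a| ≤ E) (hb : |b| ≤ E) (hx : |x| ≤ U)
    (hy : |y| ≤ U) : |a * x - b * y| ≤ 2 * U * E := by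
  have h1 : |a * x| ≤ E * U := by
    rw [abs_mul]
    exact mul_le_mul ha hx (abs_nonneg _) ((abs_nonneg _).trans ha)
  have h2 : |b * y| ≤ E * U := by
    rw [abs_mul]
    exact mul_le_mul hb hy (abs_nonneg _) ((abs_nonneg _).trans hb)
  have h3 := abs_sub (a * x) (b * y)
  linarith

/-- The size of the coordinates. -/
theorem co_abs {c : Fin 3 → Fin 2 → ℝ} {U D E : ℝ} (hD : 0 < D) (hd : D ≤ |dt c|)
    (h1 : ∀ k, |u1 c k| ≤ U) (h2 : ∀ k, |u2 c k| ≤ U) {M : Fin 2 → ℝ} (hM : ∀ k, |M k| ≤ E)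
    (k : Fin 2) : |co c M k| ≤ 2 * U * E / D := by
  have hU : 0 ≤ U := (abs_nonneg _).trans (h1 0)
  have hE : 0 ≤ E := (abs_nonneg _).trans (hM 0)
  have key : ∀ z : ℝ, |z| ≤ 2 * U * E → |z / dt c| ≤ 2 * U * E / D := by
    intro z hz
    rw [abs_div]
    exact div_le_div₀ (by positivity) hz hD hd
  fin_cases k
  · exact key _ (abs_mul_sub_le (hM 0) (hM 1) (h2 1) (h2 0))
  · exact key _ (abs_mul_sub_le (hM 1) (hM 0) (h1 0) (h1 1))

/-- The determinant of rounded vectors. -/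
theorem dt_near {c c' : Fin 3 → Fin 2 → ℝ} {U E : ℝ}
    (h1 : ∀ k, |u1 c k| ≤ U) (h2 : ∀ k, |u2 c' k| ≤ U) (h3 : ∀ k, |u1 c' k - u1 c k| ≤ E)
    (h4 : ∀ k, |u2 c' k - u2 c k| ≤ E) : |dt c' - dt c| ≤ 4 * U * E := by
  have e1 : dt c' - dt c = ((u1 c' 0 - u1 c 0) * u2 c' 1 - (u1 c' 1 - u1 c 1) * u2 c' 0) +
      ((u2 c' 1 - u2 c 1) * u1 c 0 - (u2 c' 0 - u2 c 0) * u1 c 1) := by
    unfold dt
    ring
  rw [e1]
  refine (abs_add_le _ _).trans ?_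
  have h5 := abs_mul_sub_le (h3 0) (h3 1) (h2 1) (h2 0)
  have h6 := abs_mul_sub_le (h4 1) (h4 0) (h1 0) (h1 1)
  linarith

/-- A vector outside the strip along a long vector. -/
theorem strip_det {a b x y r t : ℝ} (ht : 0 < t) (hr : r ^ 2 = a ^ 2 + b ^ 2) (hr0 : 0 < r)
    (ha : t < |a|) (h : t < |(-b / r) * x + (a / r) * y|) : t * t < |a * y - b * x| := by
  have e1 : (-b / r) * x + (a / r) * y = (a * y - b * x) / r := by
    field_simp
    ring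
  rw [e1, abs_div, abs_of_pos hr0, lt_div_iff₀ hr0] at h
  have h2 : |a| ≤ r := by
    refine abs_le_of_sq_le_sq ?_ hr0.le
    rw [hr]
    nlinarith [sq_nonneg b]
  have h3 : t * t < t * r := mul_lt_mul_of_pos_left (ha.trans_le h2) ht
  exact h3.trans h

end plane

/-! ### The extension -/

section ext

variable (d : KD)

/-- The three samples. -/
def sam (w : (d.Om × d.Om) × d.Om) : Fin 3 → d.Om := ![w.1.1, w.1.2, w.2]

/-- The cells of the velocities. -/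
noncomputable def cel (G : ℕ) (w : (d.Om × d.Om) × d.Om) : Fin 3 → Fin 2 → ℤ :=
  fun j k => ⌊(2 : ℝ) ^ G * d.o k (sam d w j)⌋

/-- The corner of a cell. -/
noncomputable def crn (G : ℕ) (c : Fin 3 → Fin 2 → ℤ) : Fin 3 → Fin 2 → ℝ :=
  fun j k => (c j k : ℝ) / 2 ^ G

/-- The position in the moving frame. -/
noncomputable def mvp (G : ℕ) (w : (d.Om × d.Om) × d.Om) : Fin 2 → ℝ :=
  fun k => (d.N k w.1.1 : ℝ) - 2 ^ d.X * (d.th w.1.1 * crn G (cel d G w) 0 k)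

open Classical in
/-- The new position. -/
noncomputable def pos3 (G A' g : ℕ) (k : Fin 2) (w : (d.Om × d.Om) × d.Om) : ℤ :=
  if 1 / 2 ^ (2 * g + 1) ≤ |dt (crn G (cel d G w))| then
    ⌊co (crn G (cel d G w)) (mvp d G w) k / 2 ^ A'⌋ else 0

/-- The three lines. -/
noncomputable def ext3 (G A' g : ℕ) : CD where
  Om := (d.Om × d.Om) × d.Om
  Lam := d.Lam
  Tau := d.Tau
  Bet := d.Bet
  Gam := (Fin 3 → Fin 2 → ℤ) × d.Bet
  P := tri d.P d.W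
  L := fun j w => d.L (sam d w j)
  T := fun w => d.T w.1.1
  b := fun w => d.b w.1.1
  a := fun w => (cel d G w, d.b w.1.1)
  th := fun w => d.th w.1.1
  N := fun k w => pos3 d G A' g k w
  X := d.X - A'
  G := {w | 1 / 2 ^ (2 * g + 1) ≤ |dt (crn G (cel d G w))|}

variable {d}

theorem sam_marg (hp : ∀ ω, 0 ≤ d.P ω) (j : Fin 3) :
    Marg (tri d.P d.W) d.P (fun w => sam d w j) := by
  fin_cases j
  · exact tri_1 hp
  · exact tri_2 hp
  · exact tri_3 hp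

theorem sam_W (hp : ∀ ω, 0 ≤ d.P ω) (j : Fin 3) {w : (d.Om × d.Om) × d.Om}
    (hw : 0 < tri d.P d.W w) : d.W (sam d w j) = d.W w.1.1 := by
  fin_cases j
  · rfl
  · exact (tri_eq12 hp hw).symm
  · exact (tri_eq13 hp hw).symm

theorem crn_near (G : ℕ) (w : (d.Om × d.Om) × d.Om) (j : Fin 3) (k : Fin 2) :
    0 ≤ d.o k (sam d w j) - crn G (cel d G w) j k ∧
      d.o k (sam d w j) - crn G (cel d G w) j k ≤ 1 / 2 ^ G := by
  have h2 : (0 : ℝ) < 2 ^ G := by positivity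
  have h1 := Int.floor_le ((2 : ℝ) ^ G * d.o k (sam d w j))
  have h3 := Int.lt_floor_add_one ((2 : ℝ) ^ G * d.o k (sam d w j))
  have e1 : crn G (cel d G w) j k = (⌊(2 : ℝ) ^ G * d.o k (sam d w j)⌋ : ℝ) / 2 ^ G := rfl
  rw [e1]
  constructor
  · rw [sub_nonneg, div_le_iff₀ h2]
    linarith
  · rw [sub_le_iff_le_add, ← add_div, le_div_iff₀ h2]
    linarith

/-- The size of the corners. -/
theorem crn_u {A B : ℕ} (hd : d.OK A B) (G : ℕ) {w : (d.Om × d.Om) × d.Om}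
    (hw : 0 < tri d.P d.W w) (j : Fin 3) (k : Fin 2) :
    |crn G (cel d G w) j k - crn G (cel d G w) 0 k| ≤ 2 ^ (B + 2) := by
  have hp := hd.law.nonneg
  have h1 := crn_near G w j k
  have h2 := crn_near G w 0 k
  have h3 := abs_le.mp (hd.hB _ ((sam_marg hp j).pos (tri_nonneg hp) hw) k)
  have h4 := abs_le.mp (hd.hB _ ((sam_marg hp 0).pos (tri_nonneg hp) hw) k)
  have h5 : (1 : ℝ) / 2 ^ G ≤ 1 := by
    rw [div_le_one (by positivity)]
    exact one_le_pow₀ (by norm_num)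
  have h6 : (1 : ℝ) ≤ 2 ^ B := one_le_pow₀ (by norm_num)
  have h7 : (2 : ℝ) ^ (B + 2) = 4 * 2 ^ B := by
    rw [pow_add]
    ring
  rw [h7, abs_le]
  constructor <;> linarith [h1.1, h1.2, h2.1, h2.2, h3.1, h3.2, h4.1, h4.2]

theorem samN {A B : ℕ} (hd : d.OK A B) {w : (d.Om × d.Om) × d.Om}
    (hw : 0 < tri d.P d.W w) (j : Fin 3) :
    d.T (sam d w j) = d.T w.1.1 ∧ d.b (sam d w j) = d.b w.1.1 ∧
      (∀ k, d.N k (sam d w j) = d.N k w.1.1) ∧ d.th (sam d w j) = d.th w.1.1 := by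
  have hp := hd.law.nonneg
  have h1 := (sam_marg hp j).pos (tri_nonneg hp) hw
  have h2 : 0 < d.P w.1.1 := (tri_1 hp).pos (tri_nonneg hp) hw
  have h3 := hd.hW _ _ h1 h2 (sam_W hp j hw)
  simp only [Prod.mk.injEq] at h3
  refine ⟨h3.1, h3.2.1, fun k => ?_, hd.hth _ _ h1 h2 (Prod.ext h3.1 h3.2.1)⟩
  fin_cases k
  · exact h3.2.2.1
  · exact h3.2.2.2

theorem floor_diff (x y : ℝ) : |((⌊y⌋ : ℝ) - ⌊x⌋) - (y - x)| ≤ 1 := by
  have h1 := Int.floor_le x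
  have h2 := Int.lt_floor_add_one x
  have h3 := Int.floor_le y
  have h4 := Int.lt_floor_add_one y
  rw [abs_le]
  constructor <;> linarith

/-- The constants. -/
theorem ext_num (A B s g : ℕ) {P t X' : ℝ} (ht : 0 ≤ t) (hX0 : 0 ≤ X')
    (hX' : X' * 2 ^ (A + B + s + 4 + 2 * g) = P) :
    2 * 2 ^ (B + 2) * (2 ^ A + P * t / 2 ^ (B + 2 * g + 6 + s)) / (1 / 2 ^ (2 * g + 1)) /
      2 ^ (A + B + s + 4 + 2 * g) ≤ 1 + X' * t / 2 ^ s := by
  have e : 2 * 2 ^ (B + 2) * (2 ^ A + P * t / 2 ^ (B + 2 * g + 6 + s)) / (1 / 2 ^ (2 * g + 1)) /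
      2 ^ (A + B + s + 4 + 2 * g) = 1 / 2 ^ s + X' * t / 2 ^ s / 4 := by
    rw [← hX']
    have e1 : (2 : ℝ) ^ (A + B + s + 4 + 2 * g) = 2 ^ A * 2 ^ B * 2 ^ s * 16 * (2 ^ g) ^ 2 := by
      ring
    have e2 : (2 : ℝ) ^ (B + 2 * g + 6 + s) = 2 ^ B * (2 ^ g) ^ 2 * 64 * 2 ^ s := by
      ring
    have e3 : (2 : ℝ) ^ (2 * g + 1) = (2 ^ g) ^ 2 * 2 := by
      ring
    have e4 : (2 : ℝ) ^ (B + 2) = 2 ^ B * 4 := by ring
    rw [e1, e2, e3, e4]
    have a1 : (0 : ℝ) < 2 ^ A := by positivity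
    have a2 : (0 : ℝ) < 2 ^ B := by positivity
    have a3 : (0 : ℝ) < 2 ^ s := by positivity
    have a4 : (0 : ℝ) < 2 ^ g := by positivity
    generalize (2 : ℝ) ^ A = a at *
    generalize (2 : ℝ) ^ B = b at *
    generalize (2 : ℝ) ^ s = c at *
    generalize (2 : ℝ) ^ g = f at *
    field_simp
    ring
  rw [e]
  have h1 : (1 : ℝ) / 2 ^ s ≤ 1 := by
    rw [div_le_one (by positivity)]
    exact one_le_pow₀ (by norm_num)
  have h2 : 0 ≤ X' * t / 2 ^ s := by positivity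
  linarith

/-- Motion of the new position along the three lines. -/
theorem pos3_move {A B s g : ℕ} (hd : d.OK A B) (hX : A + B + s + 4 + 2 * g ≤ d.X)
    {w w' : (d.Om × d.Om) × d.Om} (hw : 0 < tri d.P d.W w) (hw' : 0 < tri d.P d.W w')
    (hG : 1 / 2 ^ (2 * g + 1) ≤ |dt (crn (B + 2 * g + 6 + s) (cel d (B + 2 * g + 6 + s) w))|)
    (hc : cel d (B + 2 * g + 6 + s) w = cel d (B + 2 * g + 6 + s) w') (hb : d.b w.1.1 = d.b w'.1.1)
    (j : Fin 3) (hL : d.L (sam d w j) = d.L (sam d w' j)) (k : Fin 2) :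
    |((pos3 d (B + 2 * g + 6 + s) (A + B + s + 4 + 2 * g) g k w' : ℝ) -
        pos3 d (B + 2 * g + 6 + s) (A + B + s + 4 + 2 * g) g k w) -
      2 ^ (d.X - (A + B + s + 4 + 2 * g)) * ((d.th w'.1.1 - d.th w.1.1) * vel j k)| ≤
      4 + 2 ^ (d.X - (A + B + s + 4 + 2 * g)) * |d.th w'.1.1 - d.th w.1.1| / 2 ^ s := by
  have hp := hd.law.nonneg
  obtain ⟨G, hGd⟩ : ∃ G, G = B + 2 * g + 6 + s := ⟨_, rfl⟩
  obtain ⟨A', hA'⟩ : ∃ A', A' = A + B + s + 4 + 2 * g := ⟨_, rfl⟩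
  have hnum := ext_num A B s g (P := 2 ^ d.X) (t := |d.th w'.1.1 - d.th w.1.1|)
    (X' := 2 ^ (d.X - (A + B + s + 4 + 2 * g))) (abs_nonneg _) (by positivity)
    (by rw [← pow_add]; congr 1; omega)
  rw [← hGd] at hG hc hnum ⊢
  rw [← hA'] at hX hnum ⊢
  obtain ⟨c, hcd⟩ : ∃ c, c = crn G (cel d G w) := ⟨_, rfl⟩
  have hcd' : crn G (cel d G w') = c := by rw [hcd, hc]
  have hdt : dt c ≠ 0 := by
    intro h
    rw [← hcd, h, abs_zero] at hG
    have : (0 : ℝ) < 1 / 2 ^ (2 * g + 1) := by positivity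
    linarith
  have e1 : pos3 d G A' g k w = ⌊co c (mvp d G w) k / 2 ^ A'⌋ := by
    unfold pos3
    rw [if_pos hG, ← hcd]
  have e2 : pos3 d G A' g k w' = ⌊co c (mvp d G w') k / 2 ^ A'⌋ := by
    unfold pos3
    rw [hcd', if_pos (by rw [hcd]; exact hG)]
  -- the error of the motion
  obtain ⟨D, hD⟩ : ∃ D, D = d.th w'.1.1 - d.th w.1.1 := ⟨_, rfl⟩
  rw [← hD] at hnum ⊢
  obtain ⟨er, her⟩ : ∃ er : Fin 2 → ℝ, er = fun i => (mvp d G w' i - mvp d G w i) -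
    2 ^ d.X * D * (c j i - c 0 i) := ⟨_, rfl⟩
  have s1 := samN hd hw j
  have s2 := samN hd hw' j
  have hE : ∀ i, |er i| ≤ 2 ^ A + 2 ^ d.X * |D| / 2 ^ G := by
    intro i
    have h1 := hd.hN _ _ ((sam_marg hp j).pos (tri_nonneg hp) hw)
      ((sam_marg hp j).pos (tri_nonneg hp) hw') hL (by rw [s1.2.1, s2.2.1]; exact hb) i
    rw [s1.2.2.1, s2.2.2.1, s1.2.2.2, s2.2.2.2, ← hD] at h1
    have h2 := crn_near G w j i
    rw [← hcd] at h2
    have h3 : |2 ^ d.X * D * (d.o i (sam d w j) - c j i)| ≤ 2 ^ d.X * |D| / 2 ^ G := by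
      rw [abs_mul, abs_mul, abs_of_pos (by positivity : (0 : ℝ) < 2 ^ d.X), abs_of_nonneg h2.1,
        div_eq_mul_one_div (2 ^ d.X * |D|)]
      exact mul_le_mul_of_nonneg_left h2.2 (by positivity)
    have e3 : er i = (((d.N i w'.1.1 : ℝ) - d.N i w.1.1) - 2 ^ d.X * (D * d.o i (sam d w j))) +
        2 ^ d.X * D * (d.o i (sam d w j) - c j i) := by
      rw [her]
      show ((d.N i w'.1.1 : ℝ) - 2 ^ d.X * (d.th w'.1.1 * crn G (cel d G w') 0 i)) -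
        ((d.N i w.1.1 : ℝ) - 2 ^ d.X * (d.th w.1.1 * crn G (cel d G w) 0 i)) -
        2 ^ d.X * D * (c j i - c 0 i) = _
      rw [hcd', ← hcd, hD]
      ring
    rw [e3]
    exact (abs_add_le _ _).trans (add_le_add h1 h3)
  have e4 : co c (mvp d G w') k - co c (mvp d G w) k = 2 ^ d.X * D * vel j k + co c er k := by
    rw [co_sub, ← co_vel c hdt j k, ← co_mul, ← co_add]
    congr 1
    funext i
    rw [her]
    ring
  have h5 := co_abs (c := c) (U := 2 ^ (B + 2)) (D := 1 / 2 ^ (2 * g + 1)) (by positivity)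
    (by rw [hcd]; exact hG) (fun k => by rw [hcd]; exact crn_u hd G hw 1 k)
    (fun k => by rw [hcd]; exact crn_u hd G hw 2 k) hE k
  have h6 := floor_diff (co c (mvp d G w) k / 2 ^ A') (co c (mvp d G w') k / 2 ^ A')
  rw [e1, e2]
  have h2A : (0 : ℝ) < 2 ^ A' := by positivity
  have e5 : co c (mvp d G w') k / 2 ^ A' - co c (mvp d G w) k / 2 ^ A' =
      2 ^ (d.X - A') * (D * vel j k) + co c er k / 2 ^ A' := by
    rw [← sub_div, e4, add_div]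
    congr 1
    rw [div_eq_iff h2A.ne']
    have : (2 : ℝ) ^ d.X = 2 ^ (d.X - A') * 2 ^ A' := by
      rw [← pow_add]
      congr 1
      omega
    rw [this]
    ring
  rw [e5] at h6
  have h7 : |co c er k / 2 ^ A'| ≤ 1 + 2 ^ (d.X - A') * |D| / 2 ^ s := by
    rw [abs_div, abs_of_pos h2A]
    refine le_trans ?_ hnum
    exact div_le_div_of_nonneg_right h5 h2A.le
  have e6 : ((⌊co c (mvp d G w') k / 2 ^ A'⌋ : ℝ) - ⌊co c (mvp d G w) k / 2 ^ A'⌋) -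
      2 ^ (d.X - A') * (D * vel j k) =
      (((⌊co c (mvp d G w') k / 2 ^ A'⌋ : ℝ) - ⌊co c (mvp d G w) k / 2 ^ A'⌋) -
      (2 ^ (d.X - A') * (D * vel j k) + co c er k / 2 ^ A')) + co c er k / 2 ^ A' := by ring
  rw [e6]
  refine (abs_add_le _ _).trans ?_
  linarith

/-! ### The bad samples -/

theorem Pr_tri1 (hp : ∀ ω, 0 ≤ d.P ω) (F : Set d.Om) :
    Pr (tri d.P d.W) {w | w.1.1 ∈ F} = Pr d.P F :=
  (tri_1 hp).law (fun ω => ω ∈ F) True

theorem Pr_tri12 (hp : ∀ ω, 0 ≤ d.P ω) (F : Set (d.Om × d.Om)) :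
    Pr (tri d.P d.W) {w | w.1 ∈ F} = Pr (dbl d.P d.W) F :=
  (tri_fst hp).law (fun ω => ω ∈ F) True

theorem Pr_empty' {Ω : Type} [Fintype Ω] (p : Ω → ℝ) {E : Set Ω} (h : ∀ ω, ω ∉ E) :
    Pr p E = 0 := by
  classical
  rw [Pool.KAF.Pr_eq]
  exact Finset.sum_eq_zero fun ω _ => if_neg (h ω)

theorem not_flat {g : ℕ} {δ : ℝ} {ω : d.Om} (h : ω ∉ d.flat g δ) {α β γ : ℝ}
    (hab : α ^ 2 + β ^ 2 = 1) :
    Pr (cond d.P d.W (d.W ω)) {v | |α * d.o 0 v + β * d.o 1 v - γ| ≤ 1 / 2 ^ g} ≤ δ := by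
  by_contra hcon
  exact h ⟨α, β, γ, hab, not_le.mp hcon⟩

/-- The second velocity is near the first. -/
def ev2 (d : KD) (g : ℕ) (δ : ℝ) : Set (d.Om × d.Om) :=
  {x | x.1 ∉ d.flat g δ ∧ |d.o 0 x.2 - d.o 0 x.1| ≤ 1 / 2 ^ g}

theorem ev2_le {A B : ℕ} (hd : d.OK A B) {g : ℕ} {δ : ℝ} (hδ : 0 ≤ δ) :
    Pr (dbl d.P d.W) (ev2 d g δ) ≤ δ := by
  rw [Pr_dblW]
  refine Ex_le hd.law fun ω hω => ?_
  by_cases h : ω ∈ d.flat g δ
  · rw [Pr_empty' _ (fun v hv => hv.1 h)]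
    exact hδ
  · refine le_trans ?_ (not_flat h (α := 1) (β := 0) (γ := d.o 0 ω) (by norm_num))
    refine Pr_mono (cond_nonneg hd.law.nonneg _ _) fun v _ hv => ?_
    have h1 : |d.o 0 v - d.o 0 ω| ≤ 1 / 2 ^ g := hv.2
    show |1 * d.o 0 v + 0 * d.o 1 v - d.o 0 ω| ≤ 1 / 2 ^ g
    rw [one_mul, zero_mul, add_zero]
    exact h1

/-- The third velocity is near the line through the first two. -/
def ev3 (d : KD) (g : ℕ) (δ : ℝ) : Set ((d.Om × d.Om) × d.Om) :=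
  {w | w.1.1 ∉ d.flat g δ ∧ 1 / 2 ^ g < |d.o 0 w.1.2 - d.o 0 w.1.1| ∧
    |(-(d.o 1 w.1.2 - d.o 1 w.1.1) / √((d.o 0 w.1.2 - d.o 0 w.1.1) ^ 2 +
        (d.o 1 w.1.2 - d.o 1 w.1.1) ^ 2)) * (d.o 0 w.2 - d.o 0 w.1.1) +
      ((d.o 0 w.1.2 - d.o 0 w.1.1) / √((d.o 0 w.1.2 - d.o 0 w.1.1) ^ 2 +
        (d.o 1 w.1.2 - d.o 1 w.1.1) ^ 2)) * (d.o 1 w.2 - d.o 1 w.1.1)| ≤ 1 / 2 ^ g}

theorem ev3_le {A B : ℕ} (hd : d.OK A B) {g : ℕ} {δ : ℝ} (hδ : 0 ≤ δ) :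
    Pr (tri d.P d.W) (ev3 d g δ) ≤ δ := by
  have hp := hd.law.nonneg
  unfold Pool.Agent.H32.Dense.tri
  rw [Pr_glue (dbl_law hp)]
  refine Ex_le (isLaw_dbl hd.law d.W) fun x hx => ?_
  by_cases h : x.1 ∈ d.flat g δ
  · rw [Pr_empty' _ (fun v hv => hv.1 h)]
    exact hδ
  by_cases h2 : 1 / 2 ^ g < |d.o 0 x.2 - d.o 0 x.1|
  swap
  · rw [Pr_empty' _ (fun v hv => h2 hv.2.1)]
    exact hδ
  obtain ⟨a, ha⟩ : ∃ a, a = d.o 0 x.2 - d.o 0 x.1 := ⟨_, rfl⟩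
  obtain ⟨b, hb⟩ : ∃ b, b = d.o 1 x.2 - d.o 1 x.1 := ⟨_, rfl⟩
  obtain ⟨r, hr⟩ : ∃ r, r = √(a ^ 2 + b ^ 2) := ⟨_, rfl⟩
  have ha0 : 0 < |a| := by
    rw [ha]
    have : (0 : ℝ) < 1 / 2 ^ g := by positivity
    linarith
  have hab : 0 < a ^ 2 + b ^ 2 := by
    have := sq_pos_of_pos ha0
    rw [sq_abs] at this
    positivity
  have hr0 : 0 < r := by
    rw [hr]
    exact Real.sqrt_pos.mpr hab
  have hr2 : r ^ 2 = a ^ 2 + b ^ 2 := by
    rw [hr]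
    exact Real.sq_sqrt hab.le
  refine le_trans ?_ (not_flat h (α := -b / r) (β := a / r)
    (γ := (-b / r) * d.o 0 x.1 + (a / r) * d.o 1 x.1) (by
      rw [div_pow, div_pow, ← add_div, div_eq_one_iff_eq (by positivity), hr2]
      ring))
  refine Pr_mono (cond_nonneg hp _ _) fun v _ hv => ?_
  have h1 : |(-(d.o 1 x.2 - d.o 1 x.1) / √((d.o 0 x.2 - d.o 0 x.1) ^ 2 +
        (d.o 1 x.2 - d.o 1 x.1) ^ 2)) * (d.o 0 v - d.o 0 x.1) +
      ((d.o 0 x.2 - d.o 0 x.1) / √((d.o 0 x.2 - d.o 0 x.1) ^ 2 +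
        (d.o 1 x.2 - d.o 1 x.1) ^ 2)) * (d.o 1 v - d.o 1 x.1)| ≤ 1 / 2 ^ g := hv.2.2
  rw [← ha, ← hb, ← hr] at h1
  show |(-b / r) * d.o 0 v + (a / r) * d.o 1 v -
    ((-b / r) * d.o 0 x.1 + (a / r) * d.o 1 x.1)| ≤ 1 / 2 ^ g
  refine le_trans (le_of_eq ?_) h1
  congr 1
  ring

/-- The constants of the determinant. -/
theorem dt_num (B s g : ℕ) : 4 * (2 : ℝ) ^ (B + 2) * (1 / 2 ^ (B + 2 * g + 6 + s)) +
    1 / 2 ^ (2 * g + 1) ≤ 1 / 2 ^ g * (1 / 2 ^ g) := by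
  have e1 : 4 * (2 : ℝ) ^ (B + 2) * (1 / 2 ^ (B + 2 * g + 6 + s)) =
      1 / 2 ^ g * (1 / 2 ^ g) * (1 / 2 ^ s) / 4 := by
    have e2 : (2 : ℝ) ^ (B + 2 * g + 6 + s) = 2 ^ B * (2 ^ g) ^ 2 * 64 * 2 ^ s := by
      ring
    have e4 : (2 : ℝ) ^ (B + 2) = 2 ^ B * 4 := by ring
    rw [e2, e4]
    have a2 : (0 : ℝ) < 2 ^ B := by positivity
    have a3 : (0 : ℝ) < 2 ^ s := by positivity
    have a4 : (0 : ℝ) < 2 ^ g := by positivity
    generalize (2 : ℝ) ^ B = b at *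
    generalize (2 : ℝ) ^ s = c at *
    generalize (2 : ℝ) ^ g = f at *
    field_simp
    ring
  have e3 : (1 : ℝ) / 2 ^ (2 * g + 1) = 1 / 2 ^ g * (1 / 2 ^ g) / 2 := by
    have e5 : (2 : ℝ) ^ (2 * g + 1) = (2 ^ g) ^ 2 * 2 := by ring
    rw [e5]
    have a4 : (0 : ℝ) < 2 ^ g := by positivity
    generalize (2 : ℝ) ^ g = f at *
    field_simp
  have h1 : (1 : ℝ) / 2 ^ s ≤ 1 := by
    rw [div_le_one (by positivity)]
    exact one_le_pow₀ (by norm_num)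
  have h2 : 0 ≤ (1 : ℝ) / 2 ^ g * (1 / 2 ^ g) := by positivity
  have h3 := mul_le_mul_of_nonneg_left h1 h2
  rw [e1, e3]
  linarith

/-- Off the three bad events the three velocities are in general position. -/
theorem good3 {A B : ℕ} (hd : d.OK A B) {s g : ℕ} {δ : ℝ} {w : (d.Om × d.Om) × d.Om}
    (hw : 0 < tri d.P d.W w) (h1 : w.1.1 ∉ d.flat g δ) (h2 : w.1 ∉ ev2 d g δ)
    (h3 : w ∉ ev3 d g δ) :
    1 / 2 ^ (2 * g + 1) ≤ |dt (crn (B + 2 * g + 6 + s) (cel d (B + 2 * g + 6 + s) w))| := by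
  have hp := hd.law.nonneg
  have k2 : 1 / 2 ^ g < |d.o 0 w.1.2 - d.o 0 w.1.1| := by
    by_contra hcon
    exact h2 ⟨h1, not_lt.mp hcon⟩
  obtain ⟨a, ha⟩ : ∃ a, a = d.o 0 w.1.2 - d.o 0 w.1.1 := ⟨_, rfl⟩
  obtain ⟨b, hb⟩ : ∃ b, b = d.o 1 w.1.2 - d.o 1 w.1.1 := ⟨_, rfl⟩
  obtain ⟨r, hr⟩ : ∃ r, r = √(a ^ 2 + b ^ 2) := ⟨_, rfl⟩
  have k3 : 1 / 2 ^ g < |(-b / r) * (d.o 0 w.2 - d.o 0 w.1.1) +
      (a / r) * (d.o 1 w.2 - d.o 1 w.1.1)| := by
    by_contra hcon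
    refine h3 ⟨h1, k2, ?_⟩
    rw [← ha, ← hb, ← hr]
    exact not_lt.mp hcon
  rw [← ha] at k2
  have ha0 : 0 < |a| := by
    have : (0 : ℝ) < 1 / 2 ^ g := by positivity
    linarith
  have hab : 0 < a ^ 2 + b ^ 2 := by
    have := sq_pos_of_pos ha0
    rw [sq_abs] at this
    positivity
  have hr0 : 0 < r := by
    rw [hr]
    exact Real.sqrt_pos.mpr hab
  have hr2 : r ^ 2 = a ^ 2 + b ^ 2 := by
    rw [hr]
    exact Real.sq_sqrt hab.le
  have k4 := strip_det (by positivity) hr2 hr0 k2 k3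
  -- the true velocities
  obtain ⟨G, hG⟩ : ∃ G, G = B + 2 * g + 6 + s := ⟨_, rfl⟩
  obtain ⟨c', hc'⟩ : ∃ c' : Fin 3 → Fin 2 → ℝ, c' = fun j k => d.o k (sam d w j) := ⟨_, rfl⟩
  have e1 : dt c' = a * (d.o 1 w.2 - d.o 1 w.1.1) - b * (d.o 0 w.2 - d.o 0 w.1.1) := by
    rw [hc', ha, hb]
    rfl
  rw [← e1] at k4
  have hdiff : ∀ j k, |(c' j k - c' 0 k) - (crn G (cel d G w) j k - crn G (cel d G w) 0 k)| ≤
      1 / 2 ^ G := by
    intro j k
    have m1 := crn_near G w j k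
    have m2 := crn_near G w 0 k
    rw [hc', abs_le]
    constructor <;> linarith [m1.1, m1.2, m2.1, m2.2]
  have hU : ∀ j k, |c' j k - c' 0 k| ≤ 2 ^ (B + 2) := by
    intro j k
    have m3 := abs_le.mp (hd.hB _ ((sam_marg hp j).pos (tri_nonneg hp) hw) k)
    have m4 := abs_le.mp (hd.hB _ ((sam_marg hp 0).pos (tri_nonneg hp) hw) k)
    have h6 : (1 : ℝ) ≤ 2 ^ B := one_le_pow₀ (by norm_num)
    have h7 : (2 : ℝ) ^ (B + 2) = 4 * 2 ^ B := by
      rw [pow_add]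
      ring
    rw [hc', h7, abs_le]
    constructor <;> linarith [m3.1, m3.2, m4.1, m4.2]
  have k5 := dt_near (c := crn G (cel d G w)) (c' := c') (U := 2 ^ (B + 2)) (E := 1 / 2 ^ G)
    (fun k => crn_u hd G hw 1 k) (fun k => hU 2 k) (fun k => hdiff 1 k) (fun k => hdiff 2 k)
  have k6 := dt_num B s g
  rw [← hG] at k6 ⊢
  have k7 := abs_sub_abs_le_abs_sub (dt c') (dt (crn G (cel d G w)))
  linarith

theorem bad3_le {A B : ℕ} (hd : d.OK A B) {s g : ℕ} {δ : ℝ} (hδ : 0 ≤ δ)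
    (hfl : Pr d.P (d.flat g δ) ≤ δ) :
    Pr (tri d.P d.W) {w | 1 / 2 ^ (2 * g + 1) ≤
      |dt (crn (B + 2 * g + 6 + s) (cel d (B + 2 * g + 6 + s) w))|}ᶜ ≤ 3 * δ := by
  have hp := hd.law.nonneg
  have h1 := Pr_or (p := tri d.P d.W) (tri_nonneg hp)
    (A := {w | 1 / 2 ^ (2 * g + 1) ≤
      |dt (crn (B + 2 * g + 6 + s) (cel d (B + 2 * g + 6 + s) w))|}ᶜ)
    (B := {w | w.1.1 ∈ d.flat g δ}) (C := {w | w.1 ∈ ev2 d g δ ∨ w ∈ ev3 d g δ}) (by
      intro w hw h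
      by_contra hcon
      have hcon' := not_or.mp hcon
      have hcon2 := not_or.mp hcon'.2
      exact h (good3 hd hw hcon'.1 hcon2.1 hcon2.2))
  have h2 := Pr_or (p := tri d.P d.W) (tri_nonneg hp)
    (A := {w | w.1 ∈ ev2 d g δ ∨ w ∈ ev3 d g δ})
    (B := {w | w.1 ∈ ev2 d g δ}) (C := ev3 d g δ) (fun w _ h => h)
  rw [Pr_tri1 hp] at h1
  rw [Pr_tri12 hp] at h2
  have h3 := ev2_le hd (g := g) hδ
  have h4 := ev3_le hd (g := g) hδ
  linarith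

/-! ### The entropy of the cells -/

theorem isLaw_tri (hp : IsLaw d.P) : IsLaw (tri d.P d.W) :=
  ⟨tri_nonneg hp.nonneg, by rw [(tri_1 hp.nonneg).sum]; exact hp.sum_one⟩

theorem cel_card {A B : ℕ} (hd : d.OK A B) (s g : ℕ) {Y : Type} (y : (d.Om × d.Om) × d.Om → Y) :
    CH (tri d.P d.W) (cel d (B + 2 * g + 6 + s)) y ≤
      12 * (g + (A + B + s + 4 : ℕ)) * Real.log 2 := by
  classical
  have hp := hd.law.nonneg
  have hQ := isLaw_tri hd.law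
  obtain ⟨G, hG⟩ : ∃ G, G = B + 2 * g + 6 + s := ⟨_, rfl⟩
  rw [← hG]
  refine (ch_le_H hQ _ _).trans ?_
  obtain ⟨I, hI⟩ : ∃ I : Finset ℤ, I = Finset.Icc (-(2 ^ (G + B) : ℤ)) (2 ^ (G + B)) := ⟨_, rfl⟩
  have hIc : I.card ≤ 2 ^ (G + B + 2) := by
    rw [hI, Int.card_Icc]
    have h1 : (2 ^ (G + B) + 1 - -(2 ^ (G + B)) : ℤ).toNat = 2 ^ (G + B + 1) + 1 := by
      have h2 : (2 ^ (G + B) + 1 - -(2 ^ (G + B)) : ℤ) = ((2 ^ (G + B + 1) + 1 : ℕ) : ℤ) := by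
        push_cast
        rw [pow_succ]
        ring
      rw [h2, Int.toNat_natCast]
    rw [h1, pow_succ 2 (G + B + 1)]
    have : 1 ≤ 2 ^ (G + B + 1) := Nat.one_le_two_pow
    omega
  have h3 := H_le_log_card hQ.nonneg hQ.sum_one (cel d G)
    (Fintype.piFinset fun _ : Fin 3 => Fintype.piFinset fun _ : Fin 2 => I) (by
      intro w hw
      rw [Fintype.mem_piFinset]
      intro j
      rw [Fintype.mem_piFinset]
      intro k
      have h4 := abs_le.mp (hd.hB _ ((sam_marg hp j).pos (tri_nonneg hp) hw) k)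
      have h2G : (0 : ℝ) < 2 ^ G := by positivity
      rw [hI, Finset.mem_Icc]
      show -(2 ^ (G + B) : ℤ) ≤ ⌊(2 : ℝ) ^ G * d.o k (sam d w j)⌋ ∧
        ⌊(2 : ℝ) ^ G * d.o k (sam d w j)⌋ ≤ 2 ^ (G + B)
      have e1 : (2 : ℝ) ^ (G + B) = 2 ^ G * 2 ^ B := pow_add _ _ _
      constructor
      · rw [Int.le_floor]
        push_cast
        rw [e1, ← mul_neg]
        exact mul_le_mul_of_nonneg_left h4.1 h2G.le
      · have h5 : (2 : ℝ) ^ G * d.o k (sam d w j) ≤ ((2 ^ (G + B) : ℤ) : ℝ) := by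
          push_cast
          rw [e1]
          exact mul_le_mul_of_nonneg_left h4.2 h2G.le
        exact Int.floor_le_iff.mpr (by linarith))
  refine h3.trans ?_
  rw [Fintype.card_piFinset_const, Fintype.card_piFinset_const]
  have h6 : (((I.card ^ 2) ^ 3 : ℕ) : ℝ) ≤ 2 ^ (6 * (G + B + 2)) := by
    have h7 : (I.card ^ 2) ^ 3 ≤ ((2 ^ (G + B + 2)) ^ 2) ^ 3 :=
      Nat.pow_le_pow_left (Nat.pow_le_pow_left hIc 2) 3
    have h8 : ((2 ^ (G + B + 2)) ^ 2) ^ 3 = 2 ^ (6 * (G + B + 2)) := by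
      rw [← pow_mul, ← pow_mul]
      congr 1
      ring
    rw [h8] at h7
    exact_mod_cast h7
  have hIpos : 0 < I.card := by
    rw [Finset.card_pos, hI]
    exact ⟨0, Finset.mem_Icc.mpr ⟨by simp, by positivity⟩⟩
  have h9 : (0 : ℝ) < (((I.card ^ 2) ^ 3 : ℕ) : ℝ) := by
    exact_mod_cast pow_pos (pow_pos hIpos 2) 3
  have h10 := Real.log_le_log h9 h6
  rw [Real.log_pow] at h10
  refine h10.trans ?_
  refine mul_le_mul_of_nonneg_right ?_ (Real.log_pos (by norm_num)).le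
  rw [hG]
  push_cast
  have : (0 : ℝ) ≤ A := Nat.cast_nonneg _
  have : (0 : ℝ) ≤ s := Nat.cast_nonneg _
  linarith

/-! ### Assembly -/

theorem ext3_ok {A B s g : ℕ} (hd : d.OK A B) (hX : A + B + s + 4 + 2 * g ≤ d.X) :
    (ext3 d (B + 2 * g + 6 + s) (A + B + s + 4 + 2 * g) g).OK s := by
  classical
  have hp := hd.law.nonneg
  obtain ⟨G, hG⟩ : ∃ G, G = B + 2 * g + 6 + s := ⟨_, rfl⟩
  have key : ∀ ω ω' : (d.Om × d.Om) × d.Om, 0 < tri d.P d.W ω → 0 < tri d.P d.W ω' →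
      1 / 2 ^ (2 * g + 1) ≤ |dt (crn (B + 2 * g + 6 + s) (cel d (B + 2 * g + 6 + s) ω))| →
      ∀ j, d.L (sam d ω j) = d.L (sam d ω' j) →
      (cel d (B + 2 * g + 6 + s) ω, d.b ω.1.1) = (cel d (B + 2 * g + 6 + s) ω', d.b ω'.1.1) →
      ∀ k, _ := fun ω ω' h1 h2 h3 j h4 h5 k =>
    pos3_move hd hX h1 h2 h3 (Prod.ext_iff.mp h5).1 (Prod.ext_iff.mp h5).2 j h4 k
  refine ⟨isLaw_tri hd.law, fun ω ω' _ _ h => (Prod.ext_iff.mp h).2, ?_, ?_, ?_, ?_⟩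
  · intro ω ω' h1 h2 h
    exact hd.hth _ _ ((tri_1 hp).pos (tri_nonneg hp) h1) ((tri_1 hp).pos (tri_nonneg hp) h2) h
  · intro ω ω' _ _ h h3
    have e1 : cel d (B + 2 * g + 6 + s) ω = cel d (B + 2 * g + 6 + s) ω' := (Prod.ext_iff.mp h).1
    show 1 / 2 ^ (2 * g + 1) ≤ |dt (crn (B + 2 * g + 6 + s) (cel d (B + 2 * g + 6 + s) ω'))|
    rw [← e1]
    exact h3
  · intro ω ω' h1 h2 h3 h4 k
    by_cases hg : 1 / 2 ^ (2 * g + 1) ≤
      |dt (crn (B + 2 * g + 6 + s) (cel d (B + 2 * g + 6 + s) ω))|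
    · have h5 := key ω ω' h1 h2 hg 0 h3 h4 k
      have e1 : vel 0 k = 0 := by
        fin_cases k <;> rfl
      rw [e1, mul_zero, mul_zero, sub_zero] at h5
      exact h5
    · have e1 : cel d (B + 2 * g + 6 + s) ω = cel d (B + 2 * g + 6 + s) ω' :=
        (Prod.ext_iff.mp h4).1
      show |((pos3 d (B + 2 * g + 6 + s) (A + B + s + 4 + 2 * g) g k ω' : ℝ) -
        pos3 d (B + 2 * g + 6 + s) (A + B + s + 4 + 2 * g) g k ω)| ≤
        4 + 2 ^ (d.X - (A + B + s + 4 + 2 * g)) * |d.th ω'.1.1 - d.th ω.1.1| / 2 ^ s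
      unfold pos3
      rw [if_neg hg, if_neg (by rw [← e1]; exact hg), sub_self, abs_zero]
      positivity
  · intro ω ω' h1 h2 h3 j h4 h5 k
    exact key ω ω' h1 h2 h3 j h4 h5 k

theorem ext3_CH {A B : ℕ} (hd : d.OK A B) (G A' g : ℕ) :
    CH (tri d.P d.W) (fun w => (pos3 d G A' g 0 w, pos3 d G A' g 1 w))
      (fun w => (d.T w.1.1, (cel d G w, d.b w.1.1))) ≤
      CH d.P (fun ω => (d.N 0 ω, d.N 1 ω)) (fun ω => (d.T ω, d.b ω)) := by
  have hp := hd.law.nonneg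
  have hQ0 := tri_nonneg (b := d.W) hp
  have h1 : Det (tri d.P d.W) (fun w => ((d.N 0 w.1.1, d.N 1 w.1.1),
      (d.T w.1.1, (cel d G w, d.b w.1.1)))) (fun w => (pos3 d G A' g 0 w, pos3 d G A' g 1 w)) := by
    intro w w' hw hw' h
    simp only [Prod.mk.injEq] at h
    obtain ⟨⟨n0, n1⟩, t0, c0, b0⟩ := h
    have hth := hd.hth _ _ ((tri_1 hp).pos hQ0 hw) ((tri_1 hp).pos hQ0 hw') (Prod.ext t0 b0)
    have hm : mvp d G w = mvp d G w' := by
      funext k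
      unfold mvp
      rw [c0, hth]
      have : d.N k w.1.1 = d.N k w'.1.1 := by
        fin_cases k
        · exact n0
        · exact n1
      rw [this]
    have hk : ∀ k, pos3 d G A' g k w = pos3 d G A' g k w' := by
      intro k
      unfold pos3
      rw [c0, hm]
    exact Prod.ext (hk 0) (hk 1)
  refine (CH_mono_left hQ0 h1).trans ?_
  refine (CH_mono_cond hQ0 (W := fun w => (d.T w.1.1, d.b w.1.1)) fun w w' _ _ h => ?_).trans ?_
  · simp only [Prod.mk.injEq] at h ⊢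
    exact ⟨h.1, h.2.2⟩
  · exact ((tri_1 hp).CH (fun ω => (d.N 0 ω, d.N 1 ω)) (fun ω => (d.T ω, d.b ω))).le

theorem ext3_mi {A B : ℕ} (hd : d.OK A B) (s g : ℕ) (j : Fin 3) :
    mi (tri d.P d.W) (fun w => d.L (sam d w j)) (fun w => d.T w.1.1)
      (fun w => (cel d (B + 2 * g + 6 + s) w, d.b w.1.1)) ≤
      mi d.P d.T d.L d.b + 12 * (g + (A + B + s + 4 : ℕ)) * Real.log 2 := by
  have hp := hd.law.nonneg
  have hQ0 := tri_nonneg (b := d.W) hp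
  refine (mi_ctx hQ0 _ _ _ _).trans (add_le_add (le_of_eq ?_) (cel_card hd s g _))
  have h1 := marg_mi (sam_marg (d := d) hp j) d.L d.T d.b
  have h2 : mi d.P d.L d.T d.b = mi d.P d.T d.L d.b := RS.mi_comm hp _ _ _
  rw [← h2]
  refine Eq.trans ?_ h1
  have e1 : ∀ w, 0 < tri d.P d.W w → d.T w.1.1 = d.T (sam d w j) ∧ d.b w.1.1 = d.b (sam d w j) :=
    fun w hw => ⟨(samN hd hw j).1.symm, (samN hd hw j).2.1.symm⟩
  show CH _ _ _ + CH _ _ _ - CH _ _ _ = CH _ _ _ + CH _ _ _ - CH _ _ _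
  have k1 : CH (tri d.P d.W) (fun w => d.L (sam d w j)) (fun w => d.b w.1.1) =
      CH (tri d.P d.W) (fun w => d.L (sam d w j)) (fun w => d.b (sam d w j)) :=
    CH_congr hQ0 (fun _ _ _ _ h => (Prod.ext_iff.mp h).1) (fun _ _ _ _ h => (Prod.ext_iff.mp h).1)
      (fun w w' a a' h => by rw [← (e1 w a).2, ← (e1 w' a').2]; exact h)
      (fun w w' a a' h => by
        show d.b w.1.1 = d.b w'.1.1
        rw [(e1 w a).2, (e1 w' a').2]; exact h)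
  have k2 : CH (tri d.P d.W) (fun w => d.T w.1.1) (fun w => d.b w.1.1) =
      CH (tri d.P d.W) (fun w => d.T (sam d w j)) (fun w => d.b (sam d w j)) :=
    CH_congr hQ0 (fun w w' a a' h => by
        show d.T (sam d w j) = d.T (sam d w' j)
        rw [← (e1 w a).1, ← (e1 w' a').1]; exact (Prod.ext_iff.mp h).1)
      (fun w w' a a' h => by
        show d.T w.1.1 = d.T w'.1.1
        rw [(e1 w a).1, (e1 w' a').1]; exact (Prod.ext_iff.mp h).1)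
      (fun w w' a a' h => by rw [← (e1 w a).2, ← (e1 w' a').2]; exact h)
      (fun w w' a a' h => by
        show d.b w.1.1 = d.b w'.1.1
        rw [(e1 w a).2, (e1 w' a').2]; exact h)
  have k3 : CH (tri d.P d.W) (fun w => (d.L (sam d w j), d.T w.1.1)) (fun w => d.b w.1.1) =
      CH (tri d.P d.W) (fun w => (d.L (sam d w j), d.T (sam d w j)))
        (fun w => d.b (sam d w j)) :=
    CH_congr hQ0 (fun w w' a a' h => by
        have h' := Prod.ext_iff.mp (Prod.ext_iff.mp h).1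
        refine Prod.ext h'.1 ?_
        show d.T (sam d w j) = d.T (sam d w' j)
        rw [← (e1 w a).1, ← (e1 w' a').1]; exact h'.2)
      (fun w w' a a' h => by
        have h' := Prod.ext_iff.mp (Prod.ext_iff.mp h).1
        refine Prod.ext h'.1 ?_
        show d.T w.1.1 = d.T w'.1.1
        rw [(e1 w a).1, (e1 w' a').1]; exact h'.2)
      (fun w w' a a' h => by rw [← (e1 w a).2, ← (e1 w' a').2]; exact h)
      (fun w w' a a' h => by
        show d.b w.1.1 = d.b w'.1.1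
        rw [(e1 w a).2, (e1 w' a').2]; exact h)
  rw [k1, k2, k3]

theorem ext3_mi' {A B : ℕ} (hd : d.OK A B) (s g : ℕ) :
    mi (tri d.P d.W) (fun w => d.T w.1.1) (fun w => (cel d (B + 2 * g + 6 + s) w, d.b w.1.1))
      (fun w => (d.L (sam d w 0), d.b w.1.1)) ≤
      12 * (g + (A + B + s + 4 : ℕ)) * Real.log 2 := by
  have hp := hd.law.nonneg
  have hQ := isLaw_tri hd.law
  rw [RS.mi_comm hQ.nonneg]
  refine (mi_le_ch hQ _ _ _).trans ?_
  refine (CH_mono_left hQ.nonneg (X' := cel d (B + 2 * g + 6 + s)) fun w w' _ _ h => ?_).trans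
    (cel_card hd s g _)
  have h' := Prod.ext_iff.mp h
  exact Prod.ext h'.1 (Prod.ext_iff.mp h'.2).2

/-- The dead windows of the extension. -/
theorem ext3_dead {A B : ℕ} (hd : d.OK A B) (G A' g k' i : ℕ) (w : (d.Om × d.Om) × d.Om) :
    (ext3 d G A' g).dead k' i w = d.dead k' i w.1.1 := by
  have hp := hd.law.nonneg
  exact Pr_cond_marg (Q := tri d.P d.W) (P := d.P) (f := fun w => w.1.1) (tri_1 hp)
    (tri_nonneg hp) (fun w => (d.L w.1.1, (d.b w.1.1, d.Ti i w.1.1)))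
    (fun ω => (d.L ω, (d.b ω, d.Ti i ω))) (ω := w) (fun v _ => Iff.rfl)
    {v | |d.th v - d.th w.1.1| < (2 : ℝ) ^ (-((i : ℤ) + k'))}

/-- **Extension.** -/
theorem ext_thm : ExtStmt := by
  intro A B s
  refine ⟨A + B + s + 4, fun d g δ hd hδ hX hfl => ?_⟩
  have hp := hd.law.nonneg
  refine ⟨ext3 d (B + 2 * g + 6 + s) (A + B + s + 4 + 2 * g) g, ext3_ok hd hX, ?_, bad3_le hd hδ hfl,
    ext3_CH hd _ _ _, fun j => ext3_mi hd s g j, ext3_mi' hd s g, fun D => ?_⟩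
  · show d.X - (A + B + s + 4 + 2 * g) + (A + B + s + 4 + 2 * g) = d.X
    omega
  · refine ⟨fun i => {w | w.1.1 ∈ D i}, fun i => Pr_tri1 hp (D i), fun k' i c h w hw hn => ?_⟩
    rw [ext3_dead hd]
    exact h w.1.1 ((tri_1 hp).pos (tri_nonneg hp) hw) hn

end ext

end Pool.KS2
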